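import Pool.Agent.Helper45.LinK.GoalsM
import Pool.Agent.Helper22.Lin.Fibim

/-! # Packet FIBIMK: the images of the fibres are compact -/

open Complex Metric Set Filter Topology MeasureTheory
open scoped ContDiff ComplexConjugate ComplexOrder Manifold

namespace Pool.Agent.Helper11.LinK

open Pool.Agent.Helper95.Lin Pool.Agent.Helper16.Abund Pool.Agent.Helper92.Orb
open Pool.Agent.Helper45.LinK

universe u

theorem fibimK : S_FIBIMK.{u} := by
  intro b k D hD Λ hΛ X _ P hP hper z hz
  set F : (Fin (2 * k) → ℝ) → tube D hD k := fun θ =>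
    ⟨Fin.append z (comb Λ z θ), by rw [mem_tube, base_append]; exact hz⟩ with hF
  have hFc : Continuous F := by
    apply Continuous.subtype_mk
    rw [continuous_pi_iff]
    intro i
    refine Fin.addCases (fun i => ?_) (fun i => ?_) i
    · simp only [Fin.append_left]
      exact continuous_const
    · simp only [Fin.append_right]
      exact (continuous_apply i).comp (Pool.Agent.Helper22.Lin.continuous_comb Λ z)
  have hcomp : IsCompact (P '' (F '' Icc 0 1)) :=
    ((isCompact_Icc (a := (0 : Fin (2 * k) → ℝ)) (b := 1)).image hFc).image hP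
  convert hcomp using 1
  ext x
  constructor
  · rintro ⟨y, hy, rfl⟩
    obtain ⟨m, hm, -⟩ := existsUnique_act (k := k) hD (Λ := Λ) hΛ.2 (y : tube D hD k)
    obtain ⟨-, θ, hθ, hfib⟩ := hm
    have hb : base (act hD Λ m y).1 = z := by
      have : base (act hD Λ m y).1 = base (y : tube D hD k).1 := base_shift _ _ _
      rw [this]; exact hy
    refine ⟨F θ, ⟨θ, ⟨fun l => (hθ l).1, fun l => (hθ l).2.le⟩, rfl⟩, ?_⟩
    have e : F θ = act hD Λ m y := by
      apply Subtype.ext
      rw [← append_base_fib (act hD Λ m y).1, hb, hfib, hb]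
    rw [e]
    exact hper m y
  · rintro ⟨_, ⟨θ, -, rfl⟩, rfl⟩
    exact ⟨F θ, base_append _ _, rfl⟩

end Pool.Agent.Helper11.LinK
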