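import Pool.Agent.Helper57.LinK.FB

/-! # Packet FTH: the (0,1) derivative of the Christoffel form is holomorphic along the fibres -/

open Complex Metric Set Filter Topology MeasureTheory
open scoped ContDiff ComplexConjugate ComplexOrder Manifold

namespace Pool.Agent.Helper11.LinK

open Pool.Agent.Helper45.LinK Pool.Agent.Helper95.Lin Pool.Agent.Helper16.Abund
  Pool.Agent.Helper92.Orb Pool.Agent.Helper57.LinK

section

variable {b k : ℕ}

/-- The inclusion of the fibre, as a continuous real linear map. -/
noncomputable def vL (b k : ℕ) : Cn k →L[ℝ] Cn (b + k) := LinearMap.toContinuousLinearMap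
  { toFun := fun u => vert u
    map_add' := by
      intro u u'
      funext i
      refine Fin.addCases (fun i => ?_) (fun i => ?_) i <;> simp [vert]
    map_smul' := by
      intro c u
      funext i
      refine Fin.addCases (fun i => ?_) (fun i => ?_) i <;> simp [vert] }

theorem vL_apply (u : Cn k) : vL b k u = vert u := rfl

theorem app_hasFDerivAt (z : Cn b) (w : Cn k) :
    HasFDerivAt (fun w : Cn k => (Fin.append z w : Cn (b + k))) (vL b k) w := by
  have hio : (fun w : Cn k => (Fin.append z w : Cn (b + k))) =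
      fun w => vL b k w + Fin.append z 0 := by
    funext w
    rw [vL_apply]
    funext i
    refine Fin.addCases (fun i => ?_) (fun i => ?_) i <;> simp [vert]
  rw [hio]
  exact (vL b k).hasFDerivAt.add_const _

theorem dzb_fibre {E : Type} [NormedAddCommGroup E] [NormedSpace ℂ E] {G : Cn (b + k) → E}
    {z : Cn b} {w : Cn k} (hG : DifferentiableAt ℝ G (Fin.append z w)) (e : Cn k) :
    DifferentiableAt ℝ (fun w : Cn k => G (Fin.append z w)) w ∧
    dzb e (fun w : Cn k => G (Fin.append z w)) w = dzb (vert e) G (Fin.append z w) := by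
  have h : HasFDerivAt (fun w : Cn k => G (Fin.append z w))
      ((fderiv ℝ G (Fin.append z w)).comp (vL b k)) w :=
    HasFDerivAt.comp w hG.hasFDerivAt (app_hasFDerivAt z w)
  refine ⟨h.differentiableAt, ?_⟩
  unfold dzb
  rw [h.fderiv]
  simp only [ContinuousLinearMap.comp_apply, vL_apply, vert_smul]

theorem dzb_zero {n : ℕ} {E : Type} [NormedAddCommGroup E] [NormedSpace ℂ E] (e x : Cn n) :
    dzb e (fun _ : Cn n => (0 : E)) x = 0 := by
  unfold dzb
  simp

theorem isOpen_tubeK {D : Set (Cn b)} (hD : IsOpen D) : IsOpen (tubeK D k) := by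
  refine hD.preimage ?_
  unfold base
  fun_prop

end

theorem fth (hCOMM : S_COMM) (hCRE : S_CRE) : S_FTH := by
  intro b k D N hD hN hol η z hz w
  have hM : IsOpen (tubeK D k) := isOpen_tubeK hD
  have hv : (Fin.append z w : Cn (b + k)) ∈ tubeK D k := by
    have : base (Fin.append z w : Cn (b + k)) = z := by
      funext i
      simp [base]
    show base _ ∈ D
    rw [this]
    exact hz
  have hMv : tubeK D k ∈ 𝓝 (Fin.append z w : Cn (b + k)) := hM.mem_nhds hv
  have hd : DifferentiableAt ℝ (dzb η N) (Fin.append z w) :=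
    ((((hCOMM hM N hN).1 η).2).contDiffAt hMv).differentiableAt (by simp)
  refine (hCRE (fun w : Cn k => dzb η N (Fin.append z w)) w).2 (dzb_fibre hd 0).1 fun e => ?_
  rw [(dzb_fibre hd e).2, ((hCOMM hM N hN).2 _ hv (vert e) η).1]
  have h0 : dzb (vert e) N =ᶠ[𝓝 (Fin.append z w : Cn (b + k))] fun _ => 0 := by
    filter_upwards [hMv] with x hx
    exact dzb_vert hCRE hM hN hol hx e
  rw [dzb_congr h0]
  exact dzb_zero (E := Cn k →L[ℂ] CE k) _ _

end Pool.Agent.Helper11.LinK
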