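import Pool.Agent.Helper45.LinK.GoalsK
import Pool.Agent.Helper88.Lin.NOSS

/-!
# Packet NOSSK: there is no semisimple part, fibre `ℂᵏ`
-/

open Complex Metric Set Filter Topology MeasureTheory
open scoped ContDiff ComplexConjugate ComplexOrder

namespace Pool.Agent.Helper11.LinK

open Pool.Agent.Helper95.Lin Pool.Agent.Helper16.Abund Pool.Agent.Helper45.LinK

theorem norm_base_sub' {b k : ℕ} (v w : Cn (b + k)) :
    ‖(base v : Cn b) - base w‖ ≤ ‖v - w‖ := by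
  rw [pi_norm_le_iff_of_nonneg (norm_nonneg _)]
  intro i
  exact norm_le_pi_norm (v - w) (Fin.castAdd k i)

theorem norm_fib_sub' {b k : ℕ} (v w : Cn (b + k)) :
    ‖(fib v : Cn k) - fib w‖ ≤ ‖v - w‖ := by
  rw [pi_norm_le_iff_of_nonneg (norm_nonneg _)]
  intro i
  exact norm_le_pi_norm (v - w) (Fin.natAdd b i)

theorem base_append' {b k : ℕ} (z : Cn b) (w : Cn k) :
    (base (Fin.append z w : Cn (b + k)) : Cn b) = z := by
  funext i
  exact Fin.append_left z w i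

theorem fib_append' {b k : ℕ} (z : Cn b) (w : Cn k) :
    (fib (Fin.append z w : Cn (b + k)) : Cn k) = w := by
  funext i
  exact Fin.append_right z w i

/-- Displacement of the action on `D × ℂᵏ`. -/
theorem norm_TtK_sub {b k : ℕ} {Γ : Type} (g : Γ → Cn b → Cn b) (A : Γ → Cn b → CE k)
    (β : Γ → Cn b → Cn k) (γ : Γ) (v : Cn (b + k)) {d : ℝ} (hd : 0 ≤ d) :
    ‖TtK g A β γ v - v‖ ≤ d ↔ ‖g γ (base v) - base v‖ ≤ d ∧
      ‖A γ (base v) (fib v) + β γ (base v) - fib v‖ ≤ d := by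
  rw [pi_norm_le_iff_of_nonneg hd, pi_norm_le_iff_of_nonneg hd, pi_norm_le_iff_of_nonneg hd]
  constructor
  · intro h
    refine ⟨fun i => ?_, fun j => ?_⟩
    · have := h (Fin.castAdd k i)
      rw [Pi.sub_apply, TtK, Fin.append_left] at this
      exact this
    · have := h (Fin.natAdd b j)
      rw [Pi.sub_apply, TtK, Fin.append_right] at this
      exact this
  · rintro ⟨h1, h2⟩ i
    refine Fin.addCases (fun i => ?_) (fun j => ?_) i
    · have := h1 i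
      rw [Pi.sub_apply, TtK, Fin.append_left]
      exact this
    · have := h2 j
      rw [Pi.sub_apply, TtK, Fin.append_right]
      exact this

/-- There is no semisimple part. -/
theorem nossK (hNS : S_NS2) (hREC : S_REC2) (hSZ : S_STEPSZ) (hTGA : S_TGAK) : S_NOSSK := by
  classical
  intro b k D Γ _ g A β hD p B P hS
  obtain ⟨κ, ε₀, K₁, N, hrecok⟩ := hREC p B hS.lie
  obtain ⟨hκ, hε₀, hK₁, hK₁ε, hk2, hrec⟩ := hrecok
  obtain ⟨C, hC1, L₁⟩ := Pool.Agent.Helper88.Lin.ladder hSZ N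
  have hC0 : 0 < C := by linarith
  obtain ⟨z₀, hz₀⟩ := hD.base.dom.conn.nonempty
  obtain ⟨r, hr0, hK, hns⟩ := hNS hD p B P hS κ ε₀ K₁ N ⟨hκ, hε₀, hK₁, hK₁ε, hk2, hrec⟩ z₀ hz₀
  have hKc : IsCompact (closedBall z₀ (2 * r)) := isCompact_closedBall _ _
  have hballK : ball z₀ r ⊆ closedBall z₀ (2 * r) :=
    ball_subset_closedBall.trans (closedBall_subset_closedBall (by linarith))
  set r' : ℝ := min r 1 with hr'
  have hr'0 : 0 < r' := lt_min hr0 one_pos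
  have hr'r : r' ≤ r := min_le_left _ _
  have hr'1 : r' ≤ 1 := min_le_right _ _
  set c₂ : ℝ := r' / (16 * C) with hc₂
  have hc₂0 : 0 < c₂ := by positivity
  have hc₂C : 16 * C * c₂ ≤ r' := by
    rw [hc₂]
    field_simp
    exact le_rfl
  obtain ⟨ε, γ₀, hε, hεε, hP0, hsz0, hA0⟩ := hns (c₂ / 2) ε₀ (by positivity) hε₀
  obtain ⟨G, e, hG0, hGw, he, he', hGP⟩ := Pool.Agent.Helper88.Lin.tuples hε₀ hK₁ hK₁ε
    (fun ε h1 h2 γ h3 => by
      obtain ⟨γ', hw, h4⟩ := hrec Γ P hS.aut ε h1 h2 γ h3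
      refine ⟨γ', hw, fun l => (h4 l).trans ?_⟩
      have : 0 ≤ K₁ * ε ^ 2 := by positivity
      nlinarith) hε hεε γ₀ hP0
  -- bound of the translation parts
  obtain ⟨Bd, hBd0, hBd⟩ : ∃ Bd : ℝ, 0 ≤ Bd ∧ ∀ l, ∀ x ∈ closedBall z₀ (2 * r),
      ‖β (γ₀ l) x‖ ≤ Bd ∧ ‖β (γ₀ l)⁻¹ x‖ ≤ Bd := by
    have h1 : ∀ l, ∃ L : ℝ, ∀ x ∈ closedBall z₀ (2 * r), ‖β (γ₀ l) x‖ ≤ L := fun l =>
      hKc.exists_bound_of_continuousOn ((hD.b_holo (γ₀ l)).continuousOn.mono hK)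
    have h2 : ∀ l, ∃ L : ℝ, ∀ x ∈ closedBall z₀ (2 * r), ‖β (γ₀ l)⁻¹ x‖ ≤ L := fun l =>
      hKc.exists_bound_of_continuousOn ((hD.b_holo (γ₀ l)⁻¹).continuousOn.mono hK)
    choose L1 hL1 using h1
    choose L2 hL2 using h2
    refine ⟨∑ l, (|L1 l| + |L2 l|), Finset.sum_nonneg fun l _ => by positivity, fun l x hx => ?_⟩
    have h3 : |L1 l| + |L2 l| ≤ ∑ l, (|L1 l| + |L2 l|) :=
      Finset.single_le_sum (f := fun l => |L1 l| + |L2 l|) (fun i _ => by positivity)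
        (Finset.mem_univ l)
    refine ⟨?_, ?_⟩
    · refine (hL1 l x hx).trans (le_trans ?_ h3)
      exact (le_abs_self _).trans (le_add_of_nonneg_right (abs_nonneg _))
    · refine (hL2 l x hx).trans (le_trans ?_ h3)
      exact (le_abs_self _).trans (le_add_of_nonneg_left (abs_nonneg _))
  set t : ℝ := c₂ / (2 * (Bd + 1)) with ht
  have ht0 : 0 < t := by positivity
  have hnt : ‖(t : ℂ)‖ = t := by rw [Complex.norm_real, Real.norm_of_nonneg ht0.le]
  have htB : t * Bd ≤ c₂ / 2 := by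
    have : t * (Bd + 1) = c₂ / 2 := by
      rw [ht]
      field_simp
    nlinarith
  have hT := (hTGA hD).1 t
  set x₀ : Cn (b + k) := Fin.append z₀ 0 with hx₀
  have hbx₀ : (base x₀ : Cn b) = z₀ := base_append' z₀ _
  have hfx₀ : (fib x₀ : Cn k) = 0 := fib_append' z₀ _
  have hin : ∀ x ∈ ball x₀ r', (base x : Cn b) ∈ ball z₀ r ∧ ‖(fib x : Cn k)‖ < 1 := by
    intro x hx
    rw [mem_ball, dist_eq_norm] at hx
    constructor
    · rw [mem_ball, dist_eq_norm, ← hbx₀]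
      exact (norm_base_sub' _ _).trans_lt (hx.trans_le hr'r)
    · have h1 := norm_fib_sub' x x₀
      rw [hfx₀, sub_zero] at h1
      exact h1.trans_lt (hx.trans_le hr'1)
  have hMx : ball x₀ r' ⊆ tubeK D k := fun x hx => hK (hballK (hin x hx).1)
  have hsz1 : ∀ l, Sz (TtK g A fun γ z => (t : ℂ) • β γ z) x₀ r' c₂ (G 0 l) := by
    intro l x hx
    obtain ⟨hx1, hx2⟩ := hin x hx
    have hxK : (base x : Cn b) ∈ closedBall z₀ (2 * r) := hballK hx1
    have hsg := hsz0 l (base x) hx1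
    have hsa := hA0 l (base x) hx1
    have hsb := hBd l (base x) hxK
    have gen : ∀ (AA : CE k) (bb : Cn k), ‖AA - 1‖ ≤ c₂ / 2 → ‖bb‖ ≤ Bd →
        ‖AA (fib x) + (t : ℂ) • bb - fib x‖ ≤ c₂ := by
      intro AA bb haa hbb
      have e1 : AA (fib x) + (t : ℂ) • bb - fib x = (AA - 1) (fib x) + (t : ℂ) • bb := by
        rw [ContinuousLinearMap.sub_apply, ContinuousLinearMap.one_apply]
        abel
      rw [e1]
      refine (norm_add_le _ _).trans ?_
      rw [norm_smul, hnt]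
      have h1 : ‖(AA - 1) (fib x)‖ ≤ c₂ / 2 := by
        have h3 : ‖(AA - 1) (fib x)‖ ≤ ‖AA - 1‖ * ‖(fib x : Cn k)‖ :=
          ContinuousLinearMap.le_opNorm _ _
        have h4 : ‖AA - 1‖ * ‖(fib x : Cn k)‖ ≤ (c₂ / 2) * 1 :=
          mul_le_mul haa hx2.le (norm_nonneg _) (by positivity)
        linarith
      have h2 : t * ‖bb‖ ≤ c₂ / 2 := (mul_le_mul_of_nonneg_left hbb ht0.le).trans htB
      linarith
    rw [hG0]
    exact ⟨(norm_TtK_sub _ _ _ _ _ hc₂0.le).mpr ⟨hsg.1.trans (by linarith), gen _ _ hsa.1 hsb.1⟩,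
      (norm_TtK_sub _ _ _ _ _ hc₂0.le).mpr ⟨hsg.2.trans (by linarith), gen _ _ hsa.2 hsb.2⟩⟩
  have S2 := L₁ C le_rfl hT x₀ r' c₂ hr'0 hc₂0.le hc₂C hMx G hGw hsz1
  -- all members lie in a finite set
  have hfin := hD.proper (closedBall z₀ (2 * r)) hK hKc (c₂ / t)
  refine Pool.Agent.Helper88.Lin.not_finite hε hκ ⟨0, hS.lie.pos⟩ (hk2 _) he he' hGP hfin 0
    fun m _ => ?_
  have h1 := (S2 m ⟨0, hS.lie.pos⟩ x₀ (mem_ball_self (by positivity))).1
  have h2 : c₂ / 4 ^ m ≤ c₂ := div_le_self hc₂0.le (one_le_pow₀ (by norm_num))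
  have h3 := (norm_TtK_sub _ _ _ _ _ hc₂0.le).mp (h1.trans h2)
  rw [hbx₀, hfx₀] at h3
  refine ⟨z₀, mem_closedBall_self (by positivity), 0, ?_, ?_, ?_⟩
  · rw [norm_zero]; positivity
  · rw [mem_closedBall, dist_eq_norm]
    refine h3.1.trans ?_
    have h4 : c₂ ≤ r' := by
      have : c₂ ≤ 16 * C * c₂ := by nlinarith
      linarith
    linarith
  · have h5 := h3.2
    rw [map_zero, zero_add, sub_zero, norm_smul, hnt] at h5
    rw [map_zero, zero_add, le_div_iff₀ ht0, mul_comm]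
    exact h5

end Pool.Agent.Helper11.LinK
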